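import Pool.Agent.H82.LB.Targets

/-!
MP_ee74d2_an, dimension 3: the row LEMB, the induction on scales for Lemma B.
Page H82_LB.md.
-/

set_option autoImplicit false

namespace Pool.Agent.H36.LB

open Pool.Agent.H83.G Pool.Agent.H82.LB MeasureTheory Set Filter Topology

private theorem bd_mono {L : ℕ} {κ R Λ K ρ M : ℝ} {n : ℕ} {g g' : ℝ} (hR : 0 ≤ R)
    (h : BdB L κ R Λ K ρ M n g) (hg : g ≤ g') : BdB L κ R Λ K ρ M n g' := by
  intro ι I c A H G X hA hH h1 h2 h3 h4 h5 h6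
  refine (h ι I c A H G X hA hH h1 h2 h3 h4 h5 h6).trans ?_
  have e1 : 0 ≤ ∑ k ∈ I, ∫ ζ, ‖G k ζ‖ ^ 2 :=
    Finset.sum_nonneg fun k _ => integral_nonneg fun ζ => by positivity
  have e2 : 0 ≤ A ^ (4 / 3 : ℝ) := Real.rpow_nonneg hA.le _
  have e3 : 0 ≤ R ^ (1 / 3 : ℝ) := Real.rpow_nonneg hR _
  gcongr

private theorem ev (B c : ℝ) (hc : 0 < c) : ∀ᶠ R : ℝ in atTop, B ≤ R ^ c :=
  (tendsto_rpow_atTop hc).eventually_ge_atTop B

private theorem thr (C₂ δ ε₀ ε ε₁ c₀ : ℝ) (hδ : 0 < δ) (hε₀ : 0 < ε₀)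
    (hε₀' : ε₀ ≤ 1 / 4) (hε : 0 < ε) (hε₁ : 0 < ε₁) (hc₀ : 0 < c₀) :
    ∃ R₂ : ℝ, 1 ≤ R₂ ∧ ∀ R, R₂ ≤ R → C₂ ≤ R ∧
      C₂ * R ^ (-δ) + R ^ (-(δ / 2)) ≤ (R ^ (1 - ε₀)) ^ (-(δ / 2)) ∧
      (R ^ (1 - ε₀)) ^ (-(δ / 2)) ≤ 1 / 8 ∧ 2 * C₂ ≤ R ^ (ε₀ * ε / 2) ∧
      R ^ (1 - ε₀) ≤ R / 2 ∧ C₂ ≤ R ^ (ε₀ / 2) ∧ C₂ ≤ R ^ (c₀ / 8) ∧ C₂ ≤ R ^ (1 / 5 : ℝ) ∧
      2 * C₂ ≤ R ^ ε₁ ∧ 2 * C₂ ≤ R ^ (c₀ / 4) := by
  have hpos : 0 < (1 - ε₀) * (δ / 2) := by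
    have : 0 < 1 - ε₀ := by linarith
    positivity
  obtain ⟨R₂, hR₂⟩ := eventually_atTop.1 ((eventually_ge_atTop (1 : ℝ)).and
    ((eventually_ge_atTop C₂).and ((ev C₂ (δ / 2) (by positivity)).and
    ((ev 2 (ε₀ * (δ / 2)) (by positivity)).and ((ev 8 _ hpos).and
    ((ev (2 * C₂) (ε₀ * ε / 2) (by positivity)).and ((ev 2 ε₀ hε₀).and
    ((ev C₂ (ε₀ / 2) (by positivity)).and ((ev C₂ (c₀ / 8) (by positivity)).and
    ((ev C₂ (1 / 5) (by norm_num)).and ((ev (2 * C₂) ε₁ hε₁).and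
    (ev (2 * C₂) (c₀ / 4) (by positivity)))))))))))))
  refine ⟨max 1 R₂, le_max_left _ _, fun R hR => ?_⟩
  obtain ⟨g0, g1, g2, g3, g4, g5, g6, g7, g8, g9, g10, g11⟩ :=
    hR₂ R ((le_max_right _ _).trans hR)
  have hRp : 0 < R := by linarith
  have e1 : (R ^ (1 - ε₀)) ^ (-(δ / 2)) = R ^ (-((1 - ε₀) * (δ / 2))) := by
    rw [← Real.rpow_mul hRp.le]
    congr 1
    ring
  refine ⟨g1, ?_, ?_, g5, ?_, g7, g8, g9, g10, g11⟩
  · rw [e1]
    have e2 : R ^ (-((1 - ε₀) * (δ / 2))) = R ^ (-(δ / 2)) * R ^ (ε₀ * (δ / 2)) := by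
      rw [← Real.rpow_add hRp]
      congr 1
      ring
    have e3 : R ^ (-δ) = R ^ (-(δ / 2)) * R ^ (-(δ / 2)) := by
      rw [← Real.rpow_add hRp]
      congr 1
      ring
    rw [e2, e3]
    have h8 : 0 < R ^ (-(δ / 2)) := Real.rpow_pos_of_pos hRp _
    have h9 : C₂ * R ^ (-(δ / 2)) ≤ 1 := by
      rw [Real.rpow_neg hRp.le, ← div_eq_mul_inv, div_le_one (Real.rpow_pos_of_pos hRp _)]
      exact g2
    calc C₂ * (R ^ (-(δ / 2)) * R ^ (-(δ / 2))) + R ^ (-(δ / 2))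
        = R ^ (-(δ / 2)) * (C₂ * R ^ (-(δ / 2)) + 1) := by ring
      _ ≤ R ^ (-(δ / 2)) * R ^ (ε₀ * (δ / 2)) := by
          apply mul_le_mul_of_nonneg_left _ h8.le
          linarith
  · rw [e1, Real.rpow_neg hRp.le, one_div]
    exact inv_anti₀ (by norm_num) g4
  · have e2 : R ^ (1 - ε₀) * R ^ ε₀ = R := by
      rw [← Real.rpow_add hRp, sub_add_cancel, Real.rpow_one]
    have h8 : 0 < R ^ (1 - ε₀) := Real.rpow_pos_of_pos hRp _
    nlinarith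

/-- powers of `K` and `M` -/
private theorem pw {x R Λ C₁ s : ℝ} (k : ℕ) (hx : 1 ≤ x) (hR : 1 ≤ R) (h1 : x ^ C₁ ≤ Λ)
    (h2 : Λ ≤ R ^ (2 : ℝ)) (hs : 0 < s) (hk : k / s ≤ C₁) : x ^ k ≤ R ^ (2 * s) := by
  have hx0 : 0 ≤ x := by linarith
  have hR0 : 0 ≤ R := by linarith
  calc x ^ k = (x ^ ((k : ℝ) / s)) ^ s := by
        rw [← Real.rpow_mul hx0, div_mul_cancel₀ _ hs.ne', Real.rpow_natCast]
    _ ≤ (x ^ C₁) ^ s :=
        Real.rpow_le_rpow (Real.rpow_nonneg hx0 _) (Real.rpow_le_rpow_of_exponent_le hx hk) hs.le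
    _ ≤ (R ^ (2 : ℝ)) ^ s :=
        Real.rpow_le_rpow (Real.rpow_nonneg hx0 _) (h1.trans h2) hs.le
    _ = R ^ (2 * s) := (Real.rpow_mul hR0 _ _).symm

/-- the choice of `n₁` -/
private theorem choose_n {C₂ R ε₁ δ₁ ε₀ : ℝ} {n : ℕ} (hC₂ : 1 ≤ C₂) (hR : 1 ≤ R)
    (hδ₁ : δ₁ * ε₀ = 2 * ε₁) (hδ₁0 : 0 ≤ δ₁) (hε₀ : ε₀ ≤ 1) (h : 2 * C₂ ≤ R ^ ε₁)
    (hn : R ^ δ₁ ≤ n) :
    ∃ n₁ : ℕ, 1 ≤ n₁ ∧ C₂ * R ^ ε₁ * n₁ ≤ n ∧ (R ^ (1 - ε₀)) ^ δ₁ ≤ n₁ := by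
  have hR0 : 0 < R := by linarith
  have hq : 0 < C₂ * R ^ ε₁ := by
    have := Real.rpow_pos_of_pos hR0 ε₁
    positivity
  have hy1 : 1 ≤ (R ^ (1 - ε₀)) ^ δ₁ :=
    Real.one_le_rpow (Real.one_le_rpow hR (by linarith)) hδ₁0
  have hx : 2 * (R ^ (1 - ε₀)) ^ δ₁ ≤ n / (C₂ * R ^ ε₁) := by
    rw [le_div_iff₀ hq]
    calc 2 * (R ^ (1 - ε₀)) ^ δ₁ * (C₂ * R ^ ε₁)
        = (R ^ (1 - ε₀)) ^ δ₁ * (2 * C₂) * R ^ ε₁ := by ring
      _ ≤ (R ^ (1 - ε₀)) ^ δ₁ * R ^ ε₁ * R ^ ε₁ := by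
          refine mul_le_mul_of_nonneg_right ?_ (Real.rpow_nonneg hR0.le _)
          exact mul_le_mul_of_nonneg_left h (by linarith)
      _ = R ^ δ₁ := by
          rw [← Real.rpow_mul hR0.le, ← Real.rpow_add hR0, ← Real.rpow_add hR0]
          congr 1
          linarith
      _ ≤ n := hn
  have hfl : (R ^ (1 - ε₀)) ^ δ₁ ≤ (⌊(n : ℝ) / (C₂ * R ^ ε₁)⌋₊ : ℝ) := by
    have := Nat.lt_floor_add_one ((n : ℝ) / (C₂ * R ^ ε₁))
    linarith
  refine ⟨⌊(n : ℝ) / (C₂ * R ^ ε₁)⌋₊, ?_, ?_, hfl⟩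
  · have : (1 : ℝ) ≤ (⌊(n : ℝ) / (C₂ * R ^ ε₁)⌋₊ : ℝ) := hy1.trans hfl
    exact_mod_cast this
  · have h1 : (⌊(n : ℝ) / (C₂ * R ^ ε₁)⌋₊ : ℝ) ≤ n / (C₂ * R ^ ε₁) :=
      Nat.floor_le (by positivity)
    rw [le_div_iff₀ hq] at h1
    linarith

theorem pf_LEMB (hB2 : T_B2) (hSUMB : T_SUMB) (hBASB : T_BASB) : T_LEMB := by
  obtain ⟨ε₀, c₀, δ₀, L₀, h01, h02, h03, h04, h05, h06, hB2q⟩ := hB2
  obtain ⟨C₁', hC₁', hS⟩ := hSUMB
  have hi1 : 0 < 32 / ε₀ := by positivity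
  have hi2 : 0 < 128 / c₀ := by positivity
  refine ⟨c₀ / 16, C₁' + 32 / ε₀ + 128 / c₀, max L₀ 10, by positivity, by linarith, ?_⟩
  set C₁ : ℝ := C₁' + 32 / ε₀ + 128 / c₀ with hC₁
  have hC₁1 : 1 ≤ C₁ := by linarith
  intro L hL ε hε
  have hLL₀ : L₀ ≤ L := (le_max_left _ _).trans hL
  have hL10 : 10 ≤ L := (le_max_right _ _).trans hL
  -- parameters
  have hlb : 1 ≤ lb 2 := by
    unfold lb
    norm_num
  have hlb0 : 0 < lb 2 := by linarith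
  set ε₁ : ℝ := ε * ε₀ / 8 with hε₁
  have hε₁0 : 0 < ε₁ := by positivity
  obtain ⟨δ, h11, h12, h13, h14⟩ : ∃ δ : ℝ, 0 < δ ∧ δ ≤ δ₀ ∧ 2 * lb 2 * δ ≤ ε₁ ∧
      2 * lb 2 * δ ≤ c₀ / 8 := by
    have hq : 0 < min ε₁ (c₀ / 8) := lt_min hε₁0 (by positivity)
    have hle : 2 * lb 2 * min δ₀ (min ε₁ (c₀ / 8) / (2 * lb 2)) ≤ min ε₁ (c₀ / 8) := by
      calc 2 * lb 2 * min δ₀ (min ε₁ (c₀ / 8) / (2 * lb 2))
          ≤ 2 * lb 2 * (min ε₁ (c₀ / 8) / (2 * lb 2)) := by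
            apply mul_le_mul_of_nonneg_left (min_le_right _ _) (by positivity)
        _ = min ε₁ (c₀ / 8) := by field_simp
    exact ⟨min δ₀ (min ε₁ (c₀ / 8) / (2 * lb 2)), lt_min h05 (by positivity), min_le_left _ _,
      hle.trans (min_le_left _ _), hle.trans (min_le_right _ _)⟩
  obtain ⟨C₂, hC₂, hR⟩ := hS ε₀ c₀ δ₀ L₀ L δ ε₁ h01 h02 h03 h04 h06 hB2q hLL₀ hL10 h11 h12 hε₁0
  obtain ⟨R₂, hR₂, hthr⟩ := thr C₂ δ ε₀ ε ε₁ c₀ h11 h01 (by linarith) hε hε₁0 h03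
  obtain ⟨C₀, hC₀, hB⟩ := hBASB L
  set C : ℝ := 1 + C₀ + C₀ * R₂ with hC
  have hC1 : 1 ≤ C := by
    have : 0 ≤ C₀ * R₂ := by positivity
    linarith
  have hC0 : 0 < C := by linarith
  have hCC₀ : C₀ ≤ C := by
    have : 0 ≤ C₀ * R₂ := by positivity
    linarith
  have hCR : C₀ * R₂ ≤ C := by linarith
  refine ⟨ε / 4, C, by positivity, hC0, ?_⟩
  have key : ∀ (N : ℕ) (R Λ K ρ M κ : ℝ) (n : ℕ), 1 ≤ R → R < 2 ^ N → 1 ≤ K → 0 < ρ → 1 ≤ M →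
      (C₁ * K * M) ^ C₁ ≤ Λ → C₁ * K ^ 4 * ρ ≤ 1 → Λ ^ (-(1 / 8) : ℝ) ≤ ρ → 0 ≤ κ → κ ≤ 3 / 8 →
      (R₂ ≤ R → κ ≤ 1 / 4 + R ^ (-(δ / 2))) → R ^ (ε / 4) ≤ n →
      BdB L κ R Λ K ρ M n (C * R ^ ε * Λ ^ (-(c₀ / 16))) := by
    intro N
    induction N with
    | zero =>
      intro R Λ K ρ M κ n h1 h2
      rw [pow_zero] at h2
      exact absurd h1 (not_le.2 h2)
    | succ N ih =>
      intro R Λ K ρ M κ n h1 h2 hK hρ hM hΛ hKρ hΛρ hκ0 hκ hκ2 hn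
      have hRp : 0 < R := by linarith
      have hC₁K : 1 ≤ C₁ * K := one_le_mul_of_one_le_of_one_le hC₁1 hK
      have hKM : 1 ≤ C₁ * K * M := one_le_mul_of_one_le_of_one_le hC₁K hM
      have hΛ1 : 1 ≤ Λ := (Real.one_le_rpow hKM (by linarith)).trans hΛ
      have hΛ0 : 0 < Λ := by linarith
      have hRε1 : 1 ≤ R ^ ε := Real.one_le_rpow h1 hε.le
      have hΛc : 0 < Λ ^ (-(c₀ / 16)) := Real.rpow_pos_of_pos hΛ0 _
      have hbas := hB κ R Λ K ρ M n hκ0 (by linarith) h1 hΛ1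
      rcases lt_or_ge R R₂ with hlt | hge
      · refine bd_mono hRp.le hbas ?_
        have h3 : Λ ^ (-(4 / 3) : ℝ) ≤ Λ ^ (-(c₀ / 16)) :=
          Real.rpow_le_rpow_of_exponent_le hΛ1 (by linarith)
        have h4 : C₀ * R ≤ C * R ^ ε := by
          calc C₀ * R ≤ C₀ * R₂ := mul_le_mul_of_nonneg_left hlt.le hC₀.le
            _ ≤ C * 1 := by linarith
            _ ≤ C * R ^ ε := mul_le_mul_of_nonneg_left hRε1 hC0.le
        exact mul_le_mul h4 h3 (Real.rpow_nonneg hΛ0.le _) (by positivity)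
      rcases le_or_gt (R ^ (2 : ℝ)) Λ with hRΛ | hRΛ
      · refine bd_mono hRp.le hbas ?_
        have h3 : R ≤ Λ ^ (1 / 2 : ℝ) := by
          calc R = (R ^ (2 : ℝ)) ^ (1 / 2 : ℝ) := by
                rw [← Real.rpow_mul hRp.le]
                norm_num
            _ ≤ Λ ^ (1 / 2 : ℝ) := Real.rpow_le_rpow (Real.rpow_nonneg hRp.le _) hRΛ (by norm_num)
        calc C₀ * R * Λ ^ (-(4 / 3) : ℝ) ≤ C₀ * Λ ^ (1 / 2 : ℝ) * Λ ^ (-(4 / 3) : ℝ) := by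
              refine mul_le_mul_of_nonneg_right ?_ (Real.rpow_nonneg hΛ0.le _)
              exact mul_le_mul_of_nonneg_left h3 hC₀.le
          _ = C₀ * Λ ^ (1 / 2 + -(4 / 3) : ℝ) := by
              rw [mul_assoc, ← Real.rpow_add hΛ0]
          _ ≤ (C * R ^ ε) * Λ ^ (-(c₀ / 16)) := by
              refine mul_le_mul ?_ (Real.rpow_le_rpow_of_exponent_le hΛ1 (by linarith))
                (Real.rpow_nonneg hΛ0.le _) (by positivity)
              calc C₀ ≤ C * 1 := by linarith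
                _ ≤ C * R ^ ε := mul_le_mul_of_nonneg_left hRε1 hC0.le
      · obtain ⟨t1, t2, t3, t4, t5, t6, t7, t8, t9, t10⟩ := hthr R hge
        have hκR := hκ2 hge
        have hpow : (2 : ℝ) ^ (N + 1) = 2 * 2 ^ N := by rw [pow_succ]; ring
        have hR'1 : 1 ≤ R ^ (1 - ε₀) := Real.one_le_rpow h1 (by linarith)
        obtain ⟨n₁, hn1, hn2, hn3⟩ := choose_n (C₂ := C₂) (R := R) (ε₁ := ε₁) (δ₁ := ε / 4)
          (ε₀ := ε₀) (n := n) hC₂ h1 (by rw [hε₁]; ring) (by positivity) (by linarith) t9 hn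
        have hC₂p : 0 ≤ C₂ * R ^ (-δ) := by
          have := Real.rpow_nonneg hRp.le (-δ)
          positivity
        have b2 := ih (R ^ (1 - ε₀)) Λ K ρ M (κ + C₂ * R ^ (-δ)) n₁ hR'1 (by linarith) hK hρ hM
          hΛ hKρ hΛρ (by linarith) (by linarith) (fun _ => by linarith) hn3
        have hKC : K ^ C₁ ≤ Λ := by
          refine le_trans (Real.rpow_le_rpow (by linarith) ?_ (by linarith)) hΛ
          rw [mul_right_comm]
          exact le_mul_of_one_le_left (by linarith) (one_le_mul_of_one_le_of_one_le hC₁1 hM)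
        have hMC : M ^ C₁ ≤ Λ := by
          refine le_trans (Real.rpow_le_rpow (by linarith) ?_ (by linarith)) hΛ
          exact le_mul_of_one_le_left (by linarith) hC₁K
        have hK4 : K ^ 4 ≤ R ^ (ε₀ / 2) := by
          have := pw 4 hK h1 hKC hRΛ.le (s := ε₀ / 4) (by positivity) (by
            have e : ((4 : ℕ) : ℝ) / (ε₀ / 4) = (32 / ε₀) / 2 := by
              push_cast
              field_simp
              norm_num
            rw [e]; linarith)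
          refine this.trans (le_of_eq ?_)
          congr 1
          ring
        have hM8 : M ^ 8 ≤ R ^ (ε₀ / 2) := by
          have := pw 8 hM h1 hMC hRΛ.le (s := ε₀ / 4) (by positivity) (by
            have e : ((8 : ℕ) : ℝ) / (ε₀ / 4) = 32 / ε₀ := by
              push_cast
              field_simp
              norm_num
            rw [e]; linarith)
          refine this.trans (le_of_eq ?_)
          congr 1
          ring
        have hM8' : M ^ 8 ≤ R ^ (c₀ / 8) := by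
          have := pw 8 hM h1 hMC hRΛ.le (s := c₀ / 16) (by positivity) (by
            have e : ((8 : ℕ) : ℝ) / (c₀ / 16) = 128 / c₀ := by
              push_cast
              field_simp
              norm_num
            rw [e]; linarith)
          refine this.trans (le_of_eq ?_)
          congr 1
          ring
        have hsp : ∀ a : ℝ, R ^ (a / 2) * R ^ (a / 2) = R ^ a := by
          intro a
          rw [← Real.rpow_add hRp]
          congr 1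
          ring
        have d1 : C₂ * K ^ 4 ≤ R ^ ε₀ := by
          rw [← hsp ε₀]
          exact mul_le_mul t6 hK4 (by positivity) (Real.rpow_nonneg hRp.le _)
        have d2 : C₂ * M ^ 8 ≤ R ^ ε₀ := by
          rw [← hsp ε₀]
          exact mul_le_mul t6 hM8 (by positivity) (Real.rpow_nonneg hRp.le _)
        have d3 : C₂ * M ^ 8 ≤ R ^ (c₀ / 4) := by
          have e : R ^ (c₀ / 4) = R ^ (c₀ / 8) * R ^ (c₀ / 8) := by
            rw [← Real.rpow_add hRp]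
            congr 1
            ring
          rw [e]
          exact mul_le_mul t7 hM8' (by positivity) (Real.rpow_nonneg hRp.le _)
        have d4 : C₁' * K ^ 4 * ρ ≤ 1 := by
          refine le_trans ?_ hKρ
          have : 0 ≤ K ^ 4 * ρ := by positivity
          rw [mul_assoc, mul_assoc]
          exact mul_le_mul_of_nonneg_right (by linarith) this
        have d5 : C₂ * sR R ≤ R ^ (-δ) * ρ := by
          have e1 : sR R = R ^ (-(1 / 2) : ℝ) := by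
            unfold sR
            rw [Real.sqrt_eq_rpow, Real.rpow_neg hRp.le]
          have e2 : R ^ (-(1 / 4) : ℝ) ≤ ρ := by
            refine le_trans ?_ hΛρ
            calc R ^ (-(1 / 4) : ℝ) = (R ^ (2 : ℝ)) ^ (-(1 / 8) : ℝ) := by
                  rw [← Real.rpow_mul hRp.le]
                  norm_num
              _ ≤ Λ ^ (-(1 / 8) : ℝ) :=
                  Real.rpow_le_rpow_of_nonpos hΛ0 hRΛ.le (by norm_num)
          rw [e1]
          calc C₂ * R ^ (-(1 / 2) : ℝ) ≤ R ^ (1 / 5 : ℝ) * R ^ (-(1 / 2) : ℝ) :=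
                mul_le_mul_of_nonneg_right t8 (Real.rpow_nonneg hRp.le _)
            _ = R ^ (1 / 5 + -(1 / 2) : ℝ) := (Real.rpow_add hRp _ _).symm
            _ ≤ R ^ (-δ + -(1 / 4)) := Real.rpow_le_rpow_of_exponent_le h1 (by linarith)
            _ = R ^ (-δ) * R ^ (-(1 / 4) : ℝ) := Real.rpow_add hRp _ _
            _ ≤ R ^ (-δ) * ρ := mul_le_mul_of_nonneg_left e2 (Real.rpow_nonneg hRp.le _)
        have hg0 : 0 ≤ C * (R ^ (1 - ε₀)) ^ ε * Λ ^ (-(c₀ / 16)) := by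
          have := Real.rpow_nonneg (by linarith : (0 : ℝ) ≤ R ^ (1 - ε₀)) ε
          positivity
        have b3 := hR κ R Λ K ρ M (C * (R ^ (1 - ε₀)) ^ ε * Λ ^ (-(c₀ / 16))) n n₁ hκ0 hκ t1 hK
          hρ hM hg0 d1 d4 d2 d3 d5 hn1 hn2 b2
        refine bd_mono hRp.le b3 ?_
        have hRε : 0 < R ^ ε := Real.rpow_pos_of_pos hRp _
        -- first term
        have c2 : C₂ * (R ^ (ε₁ + 2 * lb 2 * δ) * (C * (R ^ (1 - ε₀)) ^ ε * Λ ^ (-(c₀ / 16)))) ≤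
            C * R ^ ε * Λ ^ (-(c₀ / 16)) / 2 := by
          have h4 : R ^ (ε₁ + 2 * lb 2 * δ) * (R ^ (1 - ε₀)) ^ ε * R ^ (ε₀ * ε / 2) ≤ R ^ ε := by
            rw [← Real.rpow_mul hRp.le, ← Real.rpow_add hRp, ← Real.rpow_add hRp]
            apply Real.rpow_le_rpow_of_exponent_le h1
            have h7 : (1 - ε₀) * ε = ε - ε * ε₀ := by ring
            have h8 : ε₀ * ε / 2 = ε * ε₀ / 2 := by ring
            have h9 : 0 < ε * ε₀ := by positivity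
            rw [h7, h8]
            linarith
          have h5 : 0 ≤ R ^ (ε₁ + 2 * lb 2 * δ) * (R ^ (1 - ε₀)) ^ ε := by positivity
          have h6 : (R ^ (ε₁ + 2 * lb 2 * δ) * (R ^ (1 - ε₀)) ^ ε) * (2 * C₂) ≤ R ^ ε :=
            (mul_le_mul_of_nonneg_left t4 h5).trans h4
          calc C₂ * (R ^ (ε₁ + 2 * lb 2 * δ) * (C * (R ^ (1 - ε₀)) ^ ε * Λ ^ (-(c₀ / 16))))
              = (C * Λ ^ (-(c₀ / 16)) / 2) *
                ((R ^ (ε₁ + 2 * lb 2 * δ) * (R ^ (1 - ε₀)) ^ ε) * (2 * C₂)) := by ring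
            _ ≤ (C * Λ ^ (-(c₀ / 16)) / 2) * R ^ ε :=
                mul_le_mul_of_nonneg_left h6 (by positivity)
            _ = C * R ^ ε * Λ ^ (-(c₀ / 16)) / 2 := by ring
        -- second term
        have c3 : C₂ * R ^ (2 * lb 2 * δ - c₀ / 2) ≤ C * R ^ ε * Λ ^ (-(c₀ / 16)) / 2 := by
          have h3 : R ^ (-(c₀ / 8)) ≤ Λ ^ (-(c₀ / 16)) := by
            calc R ^ (-(c₀ / 8)) = (R ^ (2 : ℝ)) ^ (-(c₀ / 16)) := by
                  rw [← Real.rpow_mul hRp.le]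
                  congr 1
                  ring
              _ ≤ Λ ^ (-(c₀ / 16)) := by
                  refine Real.rpow_le_rpow_of_nonpos hΛ0 hRΛ.le ?_
                  linarith
          have h4 : R ^ (2 * lb 2 * δ - c₀ / 2) * R ^ (c₀ / 4) ≤ R ^ (-(c₀ / 8)) := by
            rw [← Real.rpow_add hRp]
            apply Real.rpow_le_rpow_of_exponent_le h1
            linarith
          have h5 : 0 ≤ R ^ (2 * lb 2 * δ - c₀ / 2) := Real.rpow_nonneg hRp.le _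
          have h6 : R ^ (2 * lb 2 * δ - c₀ / 2) * (2 * C₂) ≤ Λ ^ (-(c₀ / 16)) :=
            ((mul_le_mul_of_nonneg_left t10 h5).trans h4).trans h3
          have h7 : 1 ≤ C * R ^ ε := one_le_mul_of_one_le_of_one_le hC1 hRε1
          have h8 : 1 * Λ ^ (-(c₀ / 16)) ≤ C * R ^ ε * Λ ^ (-(c₀ / 16)) :=
            mul_le_mul_of_nonneg_right h7 hΛc.le
          linarith
        rw [mul_add]
        linarith
  intro R Λ K ρ M n h1 hK hρ hM hΛ hKρ hΛρ hn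
  obtain ⟨N, hN⟩ := pow_unbounded_of_one_lt R (by norm_num : (1 : ℝ) < 2)
  refine key N R Λ K ρ M (1 / 4) n h1 hN hK hρ hM hΛ hKρ hΛρ (by norm_num) (by norm_num)
    (fun _ => ?_) hn
  have := Real.rpow_nonneg (by linarith : (0 : ℝ) ≤ R) (-(δ / 2))
  linarith

end Pool.Agent.H36.LB
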